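import Pool.Agent.H60.MB.Even

/-! # Milner's bound for antichains of bounded even diameter -/

set_option autoImplicit false

namespace Pool.Agent.Results.MP_f155e9_co.FiveSizes

/-- Let `n - k` be even, `s = (n - k) / 2`, and let `F` be an antichain of subsets of `Fin n` any two
members of which have a symmetric difference of at most `n - k` elements. The bound
`|F| ≤ binom(n, ⌈(n + k) / 2⌉)` holds if `n - k = 6` (and `k ≥ 1`), and it holds for all `n`, `k` if
for some number `m` the sizes less than `m` are all at most `s` or all among two consecutive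
numbers, and the sizes greater than `m` are all at least `n - s` or all among two consecutive
numbers; so it holds if there are at most five sizes `a, a + 1, m, c, c + 1`. -/
theorem result (n k : ℕ) (hkn : k ≤ n) (hE : Even (n - k)) (F : Finset (Finset (Fin n)))
    (hF : IsAntichain (· ⊆ ·) (F : Set (Finset (Fin n))))
    (hd : ∀ A ∈ F, ∀ B ∈ F, (symmDiff A B).card ≤ n - k)
    (h : (1 ≤ k ∧ n - k = 6) ∨
      ∃ m a c : ℕ,
        ((∀ A ∈ F, A.card < m → A.card ≤ (n - k) / 2) ∨
          (∀ A ∈ F, A.card < m → A.card = a ∨ A.card = a + 1)) ∧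
        ((∀ C ∈ F, m < C.card → n - (n - k) / 2 ≤ C.card) ∨
          (∀ C ∈ F, m < C.card → C.card = c ∨ C.card = c + 1))) :
    F.card ≤ n.choose ((n + k + 1) / 2) := by
  rcases h with ⟨hk, h⟩ | ⟨m, a, c, h1, h2⟩
  · exact Pool.Agent.H60.MB.six n k hk hkn h F hF hd
  · exact Pool.Agent.H60.MB.five n k m a c hkn hE F hF hd h1
      (h2.imp_left fun h C hC h3 => by have := h C hC h3; omega)

end Pool.Agent.Results.MP_f155e9_co.FiveSizes
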